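import Pool.Agent.Lib.CS20.Loc
import Pool.Agent.Lib.CS6.Tra
import Pool.Agent.Lib.CS90.Ext
import Pool.Agent.Lib.CS90.Lin

/-! The localisation step of the duality argument for matrix witnesses. -/

open Filter Topology Set
open scoped CStarAlgebra ENNReal NNReal ComplexOrder

noncomputable section

namespace Pool.Agent.Lib.CS20

open Pool.Agent.Lib.W60 Pool.Agent.Lib.CS2 Pool.Agent.Lib.CS90

variable {B D H : Type*} [NonUnitalCStarAlgebra B] [PartialOrder B] [StarOrderedRing B]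
  [NonUnitalCStarAlgebra D] [PartialOrder D] [StarOrderedRing D]
  [NonUnitalCStarAlgebra H] [PartialOrder H] [StarOrderedRing H]

/-- Inequalities on a hereditary subalgebra pass to the corresponding ideal. -/
theorem tra (al : THom B D) {φ : H →⋆ₙₐ[ℂ] B} (hφ : HerR φ) (I : TwoSidedIdeal B)
    [IsClosed (I : Set B)] (hI : I ≤ CS83.gen (range φ)) {s t : Tr B}
    (h : ∀ x : H, 0 ≤ x → s.v (φ x) ≤ t.v (φ x)) {y : D} (hy : 0 ≤ y) (hyI : y ∈ al.ideal I) :
    (al s).v y ≤ (al t).v y :=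
  al.le_on_ideal I (fun z hz hzI => Tr.le_of_comap_le hφ (fun x hx => by
    rw [Tr.comap_v _ _ hx, Tr.comap_v _ _ hx]; exact h x hx) hz (hI hzI)) hy hyI

/-- The real arithmetic of one piece. -/
theorem piece_le {C : Type} [Fintype C] {δ : ℝ} (hδ : 0 < δ) (s a c T T' : C → ℝ)
    (hs : ∀ i, |s i| ≤ 1) (hc : ∀ i, 0 ≤ c i ∧ c i ≤ 1) (h1 : ∀ i, T i ≤ T' i)
    (ha : ∀ i, |a i - c i * T i| ≤ δ * T i)
    (h : ∀ e : ℝ, 0 < e → ∃ ph : C → ℝ, -(δ * ∑ i, |ph i|) ≤ ∑ i, ph i * c i ∧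
      ∀ i, s i * T i + ph i ≤ e ∧ |ph i| ≤ T' i + e) :
    ∑ i, s i * a i ≤ 2 * δ * ∑ i, T' i := by
  refine le_of_forall_pos_le_add fun e he => ?_
  have hN : (0 : ℝ) < (1 + δ) * (Fintype.card C + 1) := by positivity
  obtain ⟨ph, p1, p2⟩ := h (e / ((1 + δ) * (Fintype.card C + 1))) (div_pos he hN)
  set e' := e / ((1 + δ) * (Fintype.card C + 1)) with he'
  have e0 : 0 < e' := div_pos he hN
  have k1 : ∀ i, s i * a i ≤ e' - ph i * c i + δ * T' i := fun i => by
    have q1 : s i * (a i - c i * T i) ≤ δ * T' i :=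
      ((le_abs_self _).trans ((abs_mul _ _).trans_le
        ((mul_le_of_le_one_left (abs_nonneg _) (hs i)).trans (ha i)))).trans
        (mul_le_mul_of_nonneg_left (h1 i) hδ.le)
    have q2 : c i * (s i * T i + ph i) ≤ c i * e' := mul_le_mul_of_nonneg_left (p2 i).1 (hc i).1
    have q3 : c i * e' ≤ e' := mul_le_of_le_one_left e0.le (hc i).2
    nlinarith
  have k2 : ∑ i, |ph i| ≤ ∑ i, T' i + Fintype.card C * e' := by
    refine (Finset.sum_le_sum fun i _ => (p2 i).2).trans_eq ?_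
    simp [Finset.sum_add_distrib]
  have k3 : ∑ i, s i * a i ≤ Fintype.card C * e' - ∑ i, ph i * c i + δ * ∑ i, T' i := by
    refine (Finset.sum_le_sum fun i _ => k1 i).trans_eq ?_
    simp [Finset.sum_add_distrib, Finset.mul_sum]
  have k4 : (1 + δ) * (Fintype.card C + 1) * e' = e := mul_div_cancel₀ _ hN.ne'
  have k5 := mul_le_mul_of_nonneg_left k2 hδ.le
  nlinarith [mul_pos hδ e0]

theorem core_gen (al : THom B D) {φ : H →⋆ₙₐ[ℂ] B} (hi : Function.Injective φ) (hφ : HerR φ)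
    (I : TwoSidedIdeal B) [IsClosed (I : Set B)] (hIφ : I ≤ CS83.gen (range φ))
    {C : Type} [Fintype C] (rho : C → Tr B) (hr : ∀ c, ∀ x : H, 0 ≤ x → (rho c).v (φ x) < ⊤)
    (w w' : C → D) (hw : ∀ c, 0 ≤ w c) (hww : ∀ c, w c ≤ w' c) (hI : ∀ c, w' c ∈ al.ideal I)
    (hf : ∀ c c', (al (rho c')).v (w' c) < ⊤) (s : C → ℝ) (hs : ∀ c, |s c| ≤ 1)
    (hF : ∀ t : Tr D, t ≤ al (∑ c, rho c) → ∀ e : ℝ, 0 < e → ∃ ph : C → ℝ,
      (∀ x : H, 0 ≤ x → 0 ≤ ∑ c, ph c * ((rho c).v (φ x)).toReal) ∧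
      ∀ c, s c * (t.v (w c)).toReal + ph c ≤ e ∧ |ph c| ≤ (t.v (w' c)).toReal + e) :
    ∑ c, s c * ((al (rho c)).v (w c)).toReal ≤ 0 := by
  classical
  have hw' : ∀ c, 0 ≤ w' c := fun c => (hw c).trans (hww c)
  have hwI : ∀ c, w c ∈ al.ideal I := fun c => mem_of_le _ (hw c) (hww c) (hI c)
  have hr' : ∀ c, ∀ x : H, 0 ≤ x → ((rho c).comap φ).v x < ⊤ := fun c x hx => by
    rw [Tr.comap_v _ _ hx]; exact hr c x hx
  have hfv : ∀ c x, 0 ≤ x → (((rho c).comap φ).toFun (hr' c) x).re = ((rho c).v (φ x)).toReal :=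
    fun c x hx => by rw [Tr.toFun_v _ _ hx, Complex.ofReal_re, Tr.comap_v _ _ hx]
  have hfin : ∀ c, (al (∑ c, rho c)).v (w' c) < ⊤ := fun c => by
    rw [al.map_sum, Tr.sum_v]
    exact ENNReal.sum_lt_top.2 fun c' _ => hf c c'
  set M : ℝ := ∑ c, ((al (∑ c, rho c)).v (w' c)).toReal with hM
  have M0 : 0 ≤ M := Finset.sum_nonneg fun c _ => ENNReal.toReal_nonneg
  suffices key : ∀ δ : ℝ, 0 < δ → ∑ c, s c * ((al (rho c)).v (w c)).toReal ≤ 2 * δ * M by
    refine le_of_forall_pos_le_add fun e he => ?_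
    have h1 : 0 < 2 * (M + 1) := by positivity
    refine (key (e / (2 * (M + 1))) (div_pos he h1)).trans ?_
    have h2 := mul_div_cancel₀ e h1.ne'
    nlinarith [div_pos he h1]
  intro δ hδ
  obtain ⟨Λ, _, r, cc, h1, h2, h3, h4, h5⟩ := loc (fun c => ((rho c).comap φ).toFun (hr' c))
    (fun c => Tr.toFun_comm _ _) hδ
  set sl : Λ → C → Tr B := fun l c => (Tr.ofFun (r l c) fun x => h1 l c _ _).extend hi hφ with hsl
  have hv : ∀ l c x, 0 ≤ x → (sl l c).v (φ x) = ENNReal.ofReal (r l c x).re := fun l c x hx => by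
    rw [hsl, Tr.extend_map _ _ _ hx, Tr.ofFun_v _ _ hx]
  have hre : ∀ l c x, 0 ≤ x → 0 ≤ (r l c x).re := fun l c x hx => ((r l c).map_nonneg hx).1
  have hS : ∀ l x, 0 ≤ x → (∑ c, sl l c).v (φ x) = ENNReal.ofReal (∑ c, (r l c x).re) :=
    fun l x hx => by
      rw [Tr.sum_v, ENNReal.ofReal_sum_of_nonneg fun c _ => hre l c x hx]
      exact Finset.sum_congr rfl fun c _ => hv l c x hx
  have hsum : ∀ c x, 0 ≤ x → (rho c).v (φ x) = (∑ l, sl l c).v (φ x) := fun c x hx => by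
    rw [← ENNReal.ofReal_toReal (hr c x hx).ne, ← hfv c x hx, h2, Complex.re_sum,
      ENNReal.ofReal_sum_of_nonneg fun l _ => hre l c x hx, Tr.sum_v]
    exact Finset.sum_congr rfl fun l _ => (hv l c x hx).symm
  have hle : ∀ l c, sl l c ≤ rho c := fun l c => (Tr.extend_le_iff _ hi hφ).2 fun x hx => by
    rw [Tr.comap_v _ _ hx, hsum c x hx, Tr.sum_v, Tr.ofFun_v _ _ hx, ← hv l c x hx]
    exact Finset.single_le_sum (f := fun l => (sl l c).v (φ x)) (fun _ _ => zero_le)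
      (Finset.mem_univ l)
  have ht : ∀ l, al (∑ c, sl l c) ≤ al (∑ c, rho c) := fun l => al.mono fun x hx => by
    rw [Tr.sum_v, Tr.sum_v]
    exact Finset.sum_le_sum fun c _ => hle l c x hx
  have f1 : ∀ l c, (al (∑ c, sl l c)).v (w' c) ≠ ⊤ := fun l c =>
    ((ht l _ (hw' c)).trans_lt (hfin c)).ne
  have f2 : ∀ l c, (al (∑ c, sl l c)).v (w c) ≠ ⊤ := fun l c =>
    ne_top_of_le_ne_top (f1 l c) (Tr.mono _ (hw c) (hww c))
  have f3 : ∀ l c, (al (sl l c)).v (w c) ≠ ⊤ := fun l c =>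
    ((al.mono (hle l c) _ (hw c)).trans_lt ((Tr.mono _ (hw c) (hww c)).trans_lt (hf c c))).ne
  have hA : ∀ c, ((al (rho c)).v (w c)).toReal = ∑ l, ((al (sl l c)).v (w c)).toReal := fun c => by
    rw [le_antisymm (tra al hφ I hIφ (fun x hx => (hsum c x hx).le) (hw c) (hwI c))
      (tra al hφ I hIφ (fun x hx => (hsum c x hx).ge) (hw c) (hwI c)), al.map_sum, Tr.sum_v,
      ENNReal.toReal_sum fun l _ => f3 l c]
  have hC : ∀ c, ∑ l, ((al (∑ c, sl l c)).v (w' c)).toReal ≤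
      ((al (∑ c, rho c)).v (w' c)).toReal := fun c => by
    rw [← ENNReal.toReal_sum fun l _ => f1 l c, ← Tr.sum_v, ← al.map_sum]
    refine ENNReal.toReal_mono (hfin c).ne (tra al hφ I hIφ (fun x hx => ?_) (hw' c) (hI c))
    rw [Finset.sum_comm, Tr.sum_v, Tr.sum_v]
    exact Finset.sum_le_sum fun c _ => (hsum c x hx).ge
  have hB : ∀ l c, |((al (sl l c)).v (w c)).toReal - cc l c * ((al (∑ c, sl l c)).v (w c)).toReal|
      ≤ δ * ((al (∑ c, sl l c)).v (w c)).toReal := fun l c => by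
    have k0 : 0 ≤ cc l c + δ := add_nonneg (h3 l c).1 hδ.le
    have d0 : 0 ≤ 2 * δ := by positivity
    have u1 := tra al hφ I hIφ (s := sl l c) (t := (cc l c + δ).toNNReal • ∑ c, sl l c)
      (fun x hx => by
        rw [Tr.smul_v, hv l c x hx, hS l x hx]
        refine le_trans (ENNReal.ofReal_le_ofReal ?_) (ENNReal.ofReal_mul k0).le
        have := abs_le.1 (h4 l c x hx)
        linarith [this.2]) (hw c) (hwI c)
    have u2 := tra al hφ I hIφ (s := (cc l c + δ).toNNReal • ∑ c, sl l c)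
      (t := sl l c + (2 * δ).toNNReal • ∑ c, sl l c) (fun x hx => by
        rw [Tr.add_v, Tr.smul_v, Tr.smul_v, hv l c x hx, hS l x hx]
        refine (ENNReal.ofReal_mul k0).ge.trans (le_trans ?_
          (add_le_add le_rfl (ENNReal.ofReal_mul d0).le))
        refine le_trans (ENNReal.ofReal_le_ofReal ?_) ENNReal.ofReal_add_le
        have := abs_le.1 (h4 l c x hx)
        linarith [this.1]) (hw c) (hwI c)
    rw [al.map_smul, Tr.smul_v] at u1
    rw [al.map_add, al.map_smul, al.map_smul, Tr.add_v, Tr.smul_v, Tr.smul_v] at u2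
    have m1 := ENNReal.mul_ne_top (ENNReal.coe_ne_top (r := (cc l c + δ).toNNReal)) (f2 l c)
    have m2 := ENNReal.mul_ne_top (ENNReal.coe_ne_top (r := (2 * δ).toNNReal)) (f2 l c)
    have v1 := ENNReal.toReal_mono m1 u1
    have v2 := ENNReal.toReal_mono (ENNReal.add_ne_top.2 ⟨f3 l c, m2⟩) u2
    rw [ENNReal.toReal_mul, ENNReal.coe_toReal, Real.coe_toNNReal _ k0] at v1
    rw [ENNReal.toReal_add (f3 l c) m2, ENNReal.toReal_mul, ENNReal.toReal_mul,
      ENNReal.coe_toReal, ENNReal.coe_toReal, Real.coe_toNNReal _ k0, Real.coe_toNNReal _ d0] at v2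
    exact abs_le.2 ⟨by linarith, by linarith⟩
  have hE : ∀ l, ∑ c, s c * ((al (sl l c)).v (w c)).toReal ≤
      2 * δ * ∑ c, ((al (∑ c, sl l c)).v (w' c)).toReal := fun l => by
    by_cases hx : ∃ x : H, 0 ≤ x ∧ 0 < ∑ c, (r l c x).re
    · obtain ⟨x, hx, hp⟩ := hx
      refine piece_le hδ s _ (cc l) _ _ hs (h3 l)
        (fun c => ENNReal.toReal_mono (f1 l c) (Tr.mono _ (hw c) (hww c))) (hB l) fun e he => ?_
      obtain ⟨ph, p1, p2⟩ := hF _ (ht l) e he
      refine ⟨ph, le_of_mul_le_mul_right ?_ hp, p2⟩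
      have q1 := h5 ph (fun a ha => by simpa only [hfv _ a ha] using p1 a ha) l x hx
      have q2 : ∑ c, ph c * (r l c x).re ≤
          ∑ c, (ph c * cc l c + δ * |ph c|) * ∑ c, (r l c x).re :=
        Finset.sum_le_sum fun c _ => by
          have q3 : ph c * ((r l c x).re - cc l c * ∑ c, (r l c x).re) ≤
              |ph c| * (δ * ∑ c, (r l c x).re) :=
            (le_abs_self _).trans ((abs_mul _ _).trans_le
              (mul_le_mul_of_nonneg_left (h4 l c x hx) (abs_nonneg _)))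
          linarith
      rw [← Finset.sum_mul, Finset.sum_add_distrib, ← Finset.mul_sum] at q2
      linarith
    · push Not at hx
      have z : ∀ c, ((al (sl l c)).v (w c)).toReal = 0 := fun c => by
        have := tra al hφ I hIφ (s := sl l c) (t := 0) (fun x hx' => by
          rw [hv l c x hx', Tr.zero_v, nonpos_iff_eq_zero, ENNReal.ofReal_eq_zero]
          exact (Finset.single_le_sum (f := fun c => (r l c x).re) (fun c _ => hre l c x hx')
            (Finset.mem_univ c)).trans (hx x hx')) (hw c) (hwI c)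
        rw [al.map_zero, Tr.zero_v, nonpos_iff_eq_zero] at this
        rw [this, ENNReal.toReal_zero]
      simp only [z, mul_zero, Finset.sum_const_zero]
      exact mul_nonneg (by positivity) (Finset.sum_nonneg fun _ _ => ENNReal.toReal_nonneg)
  calc ∑ c, s c * ((al (rho c)).v (w c)).toReal
      = ∑ l, ∑ c, s c * ((al (sl l c)).v (w c)).toReal := by
        rw [Finset.sum_comm]
        exact Finset.sum_congr rfl fun c _ => by rw [hA, Finset.mul_sum]
    _ ≤ ∑ l, 2 * δ * ∑ c, ((al (∑ c, sl l c)).v (w' c)).toReal := Finset.sum_le_sum fun l _ => hE l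
    _ ≤ 2 * δ * M := by
        rw [← Finset.mul_sum, Finset.sum_comm]
        exact mul_le_mul_of_nonneg_left (Finset.sum_le_sum fun c _ => hC c) (by positivity)

theorem core (al : THom B D) {C : Type} [Fintype C] {b0 : B} (hb : 0 ≤ b0) (rho : C → Tr B)
    (hr : ∀ c, ∀ x ∈ CS83.her b0, 0 ≤ x → (rho c).v x < ⊤)
    (w w' : C → D) (hw : ∀ c, 0 ≤ w c) (hww : ∀ c, w c ≤ w' c)
    (hI : ∀ c, w' c ∈ al.ideal (CS83.gen {b0}))
    (hf : ∀ c c', (al (rho c')).v (w' c) < ⊤) (s : C → ℝ) (hs : ∀ c, |s c| ≤ 1)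
    (hF : ∀ t : Tr D, t ≤ al (∑ c, rho c) → ∀ e : ℝ, 0 < e → ∃ ph : C → ℝ,
      (∀ x ∈ CS83.her b0, 0 ≤ x → 0 ≤ ∑ c, ph c * ((rho c).v x).toReal) ∧
      ∀ c, s c * (t.v (w c)).toReal + ph c ≤ e ∧ |ph c| ≤ (t.v (w' c)).toReal + e) :
    ∑ c, s c * ((al (rho c)).v (w c)).toReal ≤ 0 := by
  let _ : PartialOrder (CS83.her b0) := CStarAlgebra.spectralOrder _
  have _ : StarOrderedRing (CS83.her b0) := CStarAlgebra.spectralOrderedRing _
  refine core_gen al (φ := NonUnitalStarSubalgebraClass.subtype (CS83.her b0))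
    Subtype.val_injective (herR_her b0) _ (CS83.gen_mono ?_) rho
    (fun c x hx => hr c _ x.2 (map_nonneg' _ hx)) w w' hw hww hI hf s hs fun t ht e he => ?_
  · rintro _ rfl
    exact ⟨⟨_, CS83.self_mem_her hb⟩, rfl⟩
  · obtain ⟨ph, p1, p2⟩ := hF t ht e he
    exact ⟨ph, fun x hx => p1 _ x.2 (map_nonneg' _ hx), p2⟩

end Pool.Agent.Lib.CS20
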