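import Pool.Agent.Lib.CS20.RN

/-! Splitting a finite family of bounded traces into pieces on which the traces are almost
proportional; real linear inequalities pass to the pieces. -/

open scoped ComplexOrder CStarAlgebra
open Filter Topology

noncomputable section

namespace Pool.Agent.Lib.CS20

open CS46

/-- The hat functions. -/
def hat (N i : ℕ) (t : ℝ) : ℝ := cl (N * t - i + 1) - cl (N * t - i)

theorem continuous_hat (N i : ℕ) : Continuous (hat N i) :=
  (continuous_cl.comp (by fun_prop)).sub (continuous_cl.comp (by fun_prop))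

theorem hat_nonneg (N i : ℕ) (t : ℝ) : 0 ≤ hat N i t := sub_nonneg.2 (cl_mono (by linarith))

theorem hat_le_one (N i : ℕ) (t : ℝ) : hat N i t ≤ 1 := by
  have := cl_le_one (N * t - i + 1)
  have := cl_nonneg (N * t - i)
  unfold hat
  linarith

theorem sum_hat (N : ℕ) {t : ℝ} (h0 : 0 ≤ t) (h1 : t ≤ 1) :
    ∑ i : Fin (N + 1), hat N i t = 1 := by
  have hN : (0 : ℝ) ≤ N := Nat.cast_nonneg N
  have e := Finset.sum_range_sub' (fun i : ℕ => cl (N * t - i + 1)) (N + 1)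
  rw [cl_of_ge (by push_cast; nlinarith), cl_of_le (by push_cast; nlinarith), sub_zero] at e
  rw [Fin.sum_univ_eq_sum_range (fun i => hat N i t) (N + 1), ← e]
  refine Finset.sum_congr rfl fun i _ => ?_
  rw [hat]
  congr 2
  push_cast
  ring

theorem hat_near {N : ℕ} (hN : 0 < N) (i : ℕ) (t : ℝ) :
    |t * hat N i t - i / N * hat N i t| ≤ 1 / N * hat N i t := by
  have hN' : (0 : ℝ) < N := Nat.cast_pos.2 hN
  rw [← sub_mul, abs_mul, abs_of_nonneg (hat_nonneg N i t)]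
  rcases le_or_gt |N * t - i| 1 with h | h
  · refine mul_le_mul_of_nonneg_right ?_ (hat_nonneg N i t)
    have e : t - i / N = (N * t - i) / N := by field_simp
    rw [e, abs_div, abs_of_pos hN']
    exact div_le_div_of_nonneg_right h hN'.le
  · have : hat N i t = 0 := by
      rcases lt_abs.1 h with h | h
      · rw [hat, cl_of_ge (by linarith), cl_of_ge h.le, sub_self]
      · rw [hat, cl_of_le (by linarith), cl_of_le (by linarith), sub_self]
    rw [this, mul_zero, mul_zero]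

section Gen

variable {A : Type*} [NonUnitalCStarAlgebra A] [PartialOrder A] [StarOrderedRing A]
  {ι : Type*} [Fintype ι]

/-- The sum of a finite family of positive functionals. -/
def psum (τ : ι → A →ₚ[ℂ] ℂ) : A →ₚ[ℂ] ℂ :=
  CS48.mkPos (∑ j, (τ j).toLinearMap) fun x hx => by
    rw [LinearMap.sum_apply]
    exact Finset.sum_nonneg fun j _ => (τ j).map_nonneg hx

theorem psum_apply (τ : ι → A →ₚ[ℂ] ℂ) (x : A) : psum τ x = ∑ j, τ j x :=
  LinearMap.sum_apply _ _ _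

theorem psum_re (τ : ι → A →ₚ[ℂ] ℂ) (x : A) : (psum τ x).re = ∑ j, (τ j x).re := by
  rw [psum_apply, Complex.re_sum]

theorem isTr_psum {τ : ι → A →ₚ[ℂ] ℂ} (hτ : ∀ j, IsTr (τ j)) : IsTr (psum τ) := fun x y => by
  rw [psum_apply, psum_apply]
  exact Finset.sum_congr rfl fun j _ => hτ j x y

theorem le_psum (τ : ι → A →ₚ[ℂ] ℂ) (j : ι) (a : A) (ha : 0 ≤ a) :
    (τ j a).re ≤ (psum τ a).re := by
  rw [psum_re]
  exact Finset.single_le_sum (fun i _ => re_nonneg (τ i) ha) (Finset.mem_univ j)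

/-- Compression of a positive functional by a self-adjoint element. -/
def cj (τ : A →ₚ[ℂ] ℂ) (s : A) (hs : IsSelfAdjoint s) : A →ₚ[ℂ] ℂ :=
  CS48.mkPos (τ.toLinearMap ∘ₗ LinearMap.mulRight ℂ s ∘ₗ LinearMap.mulLeft ℂ s) fun _ hx =>
    τ.map_nonneg (hs.conjugate_nonneg hx)

theorem cj_apply (τ : A →ₚ[ℂ] ℂ) (s : A) (hs : IsSelfAdjoint s) (x : A) :
    cj τ s hs x = τ (s * x * s) := rfl

/-- Real linear inequalities on a conjugation invariant set pass from `τ` to `ρ`. -/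
def Pres (τ ρ : ι → A →ₚ[ℂ] ℂ) : Prop :=
  ∀ S : Set A, (∀ a ∈ S, ∀ s, IsSelfAdjoint s → s * a * s ∈ S) → ∀ α : ι → ℝ,
    (∀ a ∈ S, 0 ≤ ∑ j, α j * (τ j a).re) → ∀ a ∈ S, 0 ≤ ∑ j, α j * (ρ j a).re

/-- `ρ j` is within `δ` of `c` times the sum of the family. -/
def Near (ρ : ι → A →ₚ[ℂ] ℂ) (j : ι) (c δ : ℝ) : Prop :=
  ∀ a, 0 ≤ a → |(ρ j a).re - c * ∑ i, (ρ i a).re| ≤ δ * ∑ i, (ρ i a).re

theorem Near.pres {τ ρ : ι → A →ₚ[ℂ] ℂ} (h : Pres τ ρ) {j : ι} {c δ : ℝ} (hn : Near τ j c δ) :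
    Near ρ j c δ := by
  classical
  have hS : ∀ a ∈ {a : A | 0 ≤ a}, ∀ s, IsSelfAdjoint s → s * a * s ∈ {a : A | 0 ≤ a} :=
    fun a ha s hs => hs.conjugate_nonneg ha
  have e : ∀ (f : ι → ℝ) (u v : ℝ), ∑ i, (u * (if i = j then 1 else 0) + v) * f i
      = u * f j + v * ∑ i, f i := fun f u v => by
    simp [add_mul, Finset.sum_add_distrib, Finset.mul_sum]
  intro a ha
  have h1 := h _ hS (fun i => 1 * (if i = j then 1 else 0) + (δ - c)) (fun b hb => by
    have := (abs_le.1 (hn b hb)).1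
    rw [e]; linarith) a ha
  have h2 := h _ hS (fun i => -1 * (if i = j then 1 else 0) + (δ + c)) (fun b hb => by
    have := (abs_le.1 (hn b hb)).2
    rw [e]; linarith) a ha
  rw [e] at h1 h2
  exact abs_le.2 ⟨by linarith, by linarith⟩

end Gen

section Unital

variable {U : Type*} [CStarAlgebra U] [PartialOrder U] [StarOrderedRing U]
  {ι : Type*} [Fintype ι]

theorem split (τ : ι → U →ₚ[ℂ] ℂ) (hτ : ∀ j, IsTr (τ j)) (j0 : ι) {N : ℕ} (hN : 0 < N) :
    ∃ ρ : Fin (N + 1) → ι → U →ₚ[ℂ] ℂ, (∀ i j, IsTr (ρ i j)) ∧ (∀ j a, τ j a = ∑ i, ρ i j a) ∧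
      (∀ i, Pres τ (ρ i)) ∧ ∀ i, Near (ρ i) j0 (((i : ℕ) : ℝ) / N) (1 / N) := by
  have hσ := isTr_psum hτ
  choose z z0 z1 hz using fun n : ℕ =>
    rn hσ (le_psum τ j0) (Nat.one_div_pos_of_nat (α := ℝ) (n := n))
  have zs : ∀ n, IsSelfAdjoint (z n) := fun n => .of_nonneg (z0 n)
  have hl : (hyperfilter ℕ : Filter ℕ) ≤ atTop := Nat.hyperfilter_le_atTop
  have t0 : Tendsto (fun n : ℕ => 1 / ((n : ℝ) + 1)) (hyperfilter ℕ) (𝓝 0) :=
    tendsto_one_div_add_atTop_nhds_zero_nat.mono_left hl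
  have hsp : ∀ n, ∀ t ∈ spectrum ℝ (z n), 0 ≤ t ∧ t ≤ 1 := fun n t ht => by
    refine ⟨spectrum_nonneg_of_nonneg (z0 n) ht, ?_⟩
    rcases subsingleton_or_nontrivial U with hU | hU
    · simp at ht
    · exact (le_abs_self t).trans ((spectrum.norm_le_norm_of_mem ht).trans (z1 n))
  let b : Fin (N + 1) → ℕ → U := fun i n => cfc (hat N i) (z n)
  let s : Fin (N + 1) → ℕ → U := fun i n => cfc (fun t => √(hat N i t)) (z n)
  have hc : ∀ i : ℕ, Continuous fun t => √(hat N i t) := fun i => (continuous_hat N i).sqrt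
  have ss : ∀ i n, IsSelfAdjoint (s i n) := fun i n => cfc_predicate _ _
  have sb : ∀ i n, s i n * s i n = b i n := fun i n => by
    have := hc i
    simp only [s, b]
    rw [← cfc_mul _ _ (z n) this.continuousOn this.continuousOn]
    exact cfc_congr fun t _ => Real.mul_self_sqrt (hat_nonneg N i t)
  have b1 : ∀ i n, ‖b i n‖ ≤ 1 := fun i n => norm_cfc_le zero_le_one fun t _ => by
    rw [Real.norm_of_nonneg (hat_nonneg N i t)]; exact hat_le_one N i t
  have hf : ∀ i j n x, cj (τ j) (s i n) (ss i n) x = τ j (b i n * x) := fun i j n x => by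
    rw [cj_apply, (hτ j).rot, sb]
  have hb : ∀ i j n, CS42.nrm (cj (τ j) (s i n) (ss i n)) ≤ CS42.nrm (τ j) := fun i j n =>
    CS42.nrm_le _ (CS42.nrm_nonneg _) fun x => by
      rw [hf]
      refine (CS42.le_nrm _ _).trans (mul_le_mul_of_nonneg_left ?_ (CS42.nrm_nonneg _))
      exact (norm_mul_le _ _).trans (mul_le_of_le_one_left (norm_nonneg _) (b1 i n))
  choose ρ _ hρ using fun i j => CS42.exists_ulim (hyperfilter ℕ)
    (fun n => cj (τ j) (s i n) (ss i n)) (.of_forall (hb i j))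
  have hρ' : ∀ i j x, Tendsto (fun n => τ j (b i n * x)) (hyperfilter ℕ) (𝓝 (ρ i j x)) :=
    fun i j x => (hρ i j x).congr fun n => hf i j n x
  have hre : ∀ i j x, Tendsto (fun n => (τ j (b i n * x)).re) (hyperfilter ℕ) (𝓝 (ρ i j x).re) :=
    fun i j x => (Complex.continuous_re.tendsto _).comp (hρ' i j x)
  refine ⟨ρ, fun i j x y => ?_, fun j a => ?_, fun i S hS α h a ha => ?_, fun i a ha => ?_⟩
  · have h1 : Tendsto (fun n => n2 (psum τ) (z n * x - x * z n)) (hyperfilter ℕ) (𝓝 0) := by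
      refine squeeze_zero (fun n => n2_nonneg _ _)
        (fun n => rn_comm hσ (hτ j0) Nat.one_div_pos_of_nat.le (hz n) x) ?_
      simpa using (t0.const_mul 2).mul_const ‖x‖
    have h2 := (tendsto_cfc_n2 hσ zs z1 (continuous_hat N i) h1).mul_const (n2 (τ j) y)
    rw [zero_mul] at h2
    have h3 : Tendsto (fun n => τ j (b i n * (x * y)) - τ j (b i n * (y * x))) (hyperfilter ℕ)
        (𝓝 0) := by
      refine squeeze_zero_norm (fun n => ?_) h2
      rw [← mul_assoc, ← mul_assoc, (hτ j).rot (b i n) y x, ← map_sub, ← sub_mul]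
      exact ((hτ j).cs_mul _ _).trans (mul_le_mul_of_nonneg_right
        (n2_le_of_le (le_psum τ j) _) (n2_nonneg _ _))
    exact sub_eq_zero.1 (tendsto_nhds_unique ((hρ' i j _).sub (hρ' i j _)) h3)
  · refine tendsto_nhds_unique (tendsto_const_nhds.congr fun n => ?_)
      (tendsto_finsetSum _ fun i _ => hρ' i j a)
    have := zs n
    rw [← map_sum, ← Finset.sum_mul, ← cfc_sum (fun i : Fin (N + 1) => hat N i) (z n) _
      fun i _ => (continuous_hat N i).continuousOn, cfc_congr (g := fun _ => 1), cfc_const_one ℝ (z n),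
      one_mul]
    intro t ht
    rw [Finset.sum_apply]
    exact sum_hat N (hsp n t ht).1 (hsp n t ht).2
  · refine ge_of_tendsto' (tendsto_finsetSum _ fun j _ => (hre i j a).const_mul (α j)) fun n => ?_
    simpa only [← hf, cj_apply] using h _ (hS a ha _ (ss i n))
  · have h1 : Tendsto (fun n => (psum τ (b i n * a)).re) (hyperfilter ℕ)
        (𝓝 (∑ j, (ρ i j a).re)) := by
      simpa only [psum_re] using tendsto_finsetSum _ fun j _ => hre i j a
    have h2 := t0.mul_const (n2 (psum τ) a)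
    rw [zero_mul] at h2
    have h3 := (h1.const_mul (1 / (N : ℝ))).add h2
    rw [add_zero] at h3
    refine le_of_tendsto_of_tendsto' ((hre i j0 a).sub (h1.const_mul _)).abs h3 fun n => ?_
    have := zs n
    have hh := continuous_hat N i
    have a1 : |(τ j0 (b i n * a)).re - (psum τ (z n * (b i n * a))).re|
        ≤ 1 / ((n : ℝ) + 1) * n2 (psum τ) a := by
      rw [← Complex.sub_re]
      refine (Complex.abs_re_le_norm _).trans ((hz n _).trans ?_)
      refine mul_le_mul_of_nonneg_left ((n2_mul_le _ _ _).trans ?_) Nat.one_div_pos_of_nat.le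
      exact mul_le_of_le_one_left (n2_nonneg _ _) (b1 i n)
    have e1 : z n * b i n = cfc (fun t => t * hat N i t) (z n) := by
      rw [cfc_mul _ _ (z n), cfc_id' ℝ (z n)]
    have e2 : ∀ r : ℝ, r • b i n = cfc (fun t => r * hat N i t) (z n) := fun r => by
      rw [cfc_const_mul _ _ (z n)]
    have a2 : z n * b i n ≤ (((i : ℕ) : ℝ) / N + 1 / N) • b i n := by
      rw [e1, e2]
      refine cfc_mono fun t _ => ?_
      have := (abs_le.1 (hat_near hN i t)).2
      linarith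
    have a3 : (((i : ℕ) : ℝ) / N - 1 / N) • b i n ≤ z n * b i n := by
      rw [e1, e2]
      refine cfc_mono fun t _ => ?_
      have := (abs_le.1 (hat_near hN i t)).1
      linarith
    have a4 := hσ.re_mul_mono a2 ha
    have a5 := hσ.re_mul_mono a3 ha
    rw [smul_mul_assoc, re_smul, mul_assoc] at a4 a5
    obtain ⟨a6, a7⟩ := abs_le.1 a1
    exact abs_le.2 ⟨by linarith, by linarith⟩

theorem loc_unital (τ : ι → U →ₚ[ℂ] ℂ) (hτ : ∀ j, IsTr (τ j)) {N : ℕ} (hN : 0 < N)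
    (J : Finset ι) : ∃ (Λ : Type) (_ : Fintype Λ) (ρ : Λ → ι → U →ₚ[ℂ] ℂ) (c : Λ → ι → ℝ),
      (∀ l j, IsTr (ρ l j)) ∧ (∀ j a, τ j a = ∑ l, ρ l j a) ∧ (∀ l, Pres τ (ρ l)) ∧
      (∀ l j, 0 ≤ c l j ∧ c l j ≤ 1) ∧ ∀ l, ∀ j ∈ J, Near (ρ l) j (c l j) (1 / N) := by
  classical
  induction J using Finset.induction_on with
  | empty =>
    exact ⟨Unit, inferInstance, fun _ => τ, fun _ _ => 0, fun _ => hτ, fun j a => by simp,
      fun _ S _ α h => h, fun _ _ => ⟨le_rfl, zero_le_one⟩, fun _ j hj => by simp at hj⟩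
  | insert j0 J _ ih =>
    obtain ⟨Λ, _, ρ, c, h1, h2, h3, h4, h5⟩ := ih
    choose ρ' g1 g2 g3 g4 using fun l => split (ρ l) (h1 l) j0 hN
    refine ⟨Λ × Fin (N + 1), inferInstance, fun p => ρ' p.1 p.2,
      fun p j => if j = j0 then ((p.2 : ℕ) : ℝ) / N else c p.1 j, fun p j => g1 _ _ _,
      fun j a => ?_, fun p S hS α h => g3 p.1 p.2 S hS α (h3 p.1 S hS α h), fun p j => ?_,
      fun p j hj => ?_⟩
    · rw [h2, Fintype.sum_prod_type]
      exact Finset.sum_congr rfl fun l _ => g2 l j a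
    · dsimp only
      split_ifs
      · exact ⟨by positivity, (div_le_one (Nat.cast_pos.2 hN)).2
          (Nat.cast_le.2 (Nat.lt_succ_iff.1 p.2.2))⟩
      · exact h4 _ _
    · dsimp only
      split_ifs with h
      · rw [h]; exact g4 _ _
      · exact (h5 p.1 j ((Finset.mem_insert.1 hj).resolve_left h)).pres (g3 _ _)

end Unital

/-- Localisation of a finite family of bounded traces. -/
theorem loc {A : Type*} [NonUnitalCStarAlgebra A] [PartialOrder A] [StarOrderedRing A]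
    {ι : Type*} [Fintype ι] (τ : ι → A →ₚ[ℂ] ℂ) (hτ : ∀ j, IsTr (τ j)) {δ : ℝ} (hδ : 0 < δ) :
    ∃ (Λ : Type) (_ : Fintype Λ) (ρ : Λ → ι → A →ₚ[ℂ] ℂ) (c : Λ → ι → ℝ),
      (∀ l j, IsTr (ρ l j)) ∧ (∀ j a, τ j a = ∑ l, ρ l j a) ∧ (∀ l j, 0 ≤ c l j ∧ c l j ≤ 1) ∧
      (∀ l j a, 0 ≤ a → |(ρ l j a).re - c l j * ∑ i, (ρ l i a).re| ≤ δ * ∑ i, (ρ l i a).re) ∧
      ∀ α : ι → ℝ, (∀ a, 0 ≤ a → 0 ≤ ∑ j, α j * (τ j a).re) →
        ∀ l a, 0 ≤ a → 0 ≤ ∑ j, α j * (ρ l j a).re := by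
  obtain ⟨n, hn⟩ := exists_nat_one_div_lt hδ
  choose C C0 hC using fun j => exists_bound (τ j)
  obtain ⟨Λ, _, ρ, c, h1, h2, h3, h4, h5⟩ := loc_unital (fun j => ext (τ j) (C j) (hC j) (C0 j))
    (fun j => IsTr.ext (hC j) (C0 j) (hτ j)) n.succ_pos Finset.univ
  refine ⟨Λ, inferInstance, fun l j => CS42.pc (ρ l j) (Unitization.inrNonUnitalStarAlgHom ℂ A),
    c, fun l j x y => ?_, fun j a => ?_, h4, fun l j a ha => ?_, fun α h l a ha => ?_⟩
  · simp only [CS42.pc_apply, map_mul]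
    exact h1 l j _ _
  · rw [← ext_inr (hC j) (C0 j) a, h2]; rfl
  · have ha' : (0 : A⁺¹) ≤ a := Unitization.inr_nonneg_iff.2 ha
    refine (h5 l j (Finset.mem_univ j) a ha').trans (mul_le_mul_of_nonneg_right ?_
      (Finset.sum_nonneg fun i _ => re_nonneg _ ha'))
    push_cast
    exact hn.le
  · refine h3 l {x | 0 ≤ x ∧ x.fst = 0} (fun x hx s hs => ⟨hs.conjugate_nonneg hx.1, ?_⟩) α
      (fun x hx => ?_) a ⟨Unitization.inr_nonneg_iff.2 ha, rfl⟩
    · simp [hx.2]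
    · have e : x = (x.snd : A⁺¹) := by
        ext
        · exact hx.2
        · rfl
      rw [e]
      simp only [ext_inr]
      exact h _ (Unitization.inr_nonneg_iff.1 (e ▸ hx.1))

end Pool.Agent.Lib.CS20
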