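import Pool.Agent.Lib.CS46.N2
import Pool.Agent.Lib.CS42.Sta

/-! Approximate Radon-Nikodym densities for dominated functionals, and approximate centrality in
the 2-seminorm of a bounded trace. -/

open scoped ComplexOrder CStarAlgebra
open Filter Topology Polynomial

noncomputable section

namespace Pool.Agent.Lib.CS20

open CS46

/-- The clamp of a real number to the unit interval. -/
def cl (t : ℝ) : ℝ := min (max t 0) 1

theorem continuous_cl : Continuous cl := by unfold cl; fun_prop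

theorem cl_zero : cl 0 = 0 := by simp [cl]

theorem cl_nonneg (t : ℝ) : 0 ≤ cl t := le_min (le_max_right _ _) zero_le_one

theorem cl_le_one (t : ℝ) : cl t ≤ 1 := min_le_right _ _

theorem cl_mono {s t : ℝ} (h : s ≤ t) : cl s ≤ cl t := min_le_min_right _ (max_le_max_right _ h)

theorem cl_of_le {t : ℝ} (h : t ≤ 0) : cl t = 0 := by simp [cl, h]

theorem cl_of_ge {t : ℝ} (h : 1 ≤ t) : cl t = 1 := min_eq_right (h.trans (le_max_left _ _))

theorem cl_of_mem {t : ℝ} (h0 : 0 ≤ t) (h1 : t ≤ 1) : cl t = t := by simp [cl, h0, h1]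

section RN

variable {A : Type*} [NonUnitalCStarAlgebra A] [PartialOrder A] [StarOrderedRing A]

theorem n2_le_of_le {σ τ : A →ₚ[ℂ] ℂ} (hle : ∀ a, 0 ≤ a → (τ a).re ≤ (σ a).re) (x : A) :
    n2 τ x ≤ n2 σ x := Real.sqrt_le_sqrt (hle _ (star_mul_self_nonneg x))

theorem rn_clamp {σ τ : A →ₚ[ℂ] ℂ} (hle : ∀ a, 0 ≤ a → (τ a).re ≤ (σ a).re) {y : A}
    (hy : IsSelfAdjoint y) :
    n2 σ (cfcₙ cl y) ^ 2 - 2 * (τ (cfcₙ cl y)).re ≤ n2 σ y ^ 2 - 2 * (τ y).re := by
  have hc := continuous_cl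
  have h0 := cl_zero
  set p : A := cfcₙ (fun t : ℝ => max (t - 1) 0) y with hp
  have p0 : 0 ≤ p := cfcₙ_nonneg fun t _ => le_max_right _ _
  have h1 : y ≤ cfcₙ cl y + p := by
    rw [hp, ← cfcₙ_add _ _ y]
    conv_lhs => rw [← cfcₙ_id' ℝ y]
    refine cfcₙ_mono fun t _ => ?_
    rcases le_total t 1 with h | h
    · have : t ≤ cl t := le_min (le_max_left _ _) h
      have := le_max_right (t - 1) 0
      linarith
    · rw [cl_of_ge h]
      have := le_max_left (t - 1) 0
      linarith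
  have h2 : star (cfcₙ cl y) * cfcₙ cl y + (p + p) ≤ star y * y := by
    rw [CS46.cfc_star, hy.star_eq, hp, ← cfcₙ_mul _ _ y, ← cfcₙ_add _ _ y, ← cfcₙ_add _ _ y]
    conv_rhs => rw [← cfcₙ_id' ℝ y, ← cfcₙ_mul _ _ y]
    refine cfcₙ_mono fun t _ => ?_
    rcases le_total t 1 with h | h
    · rw [max_eq_right (by linarith)]
      rcases le_total t 0 with h' | h'
      · rw [cl_of_le h']; nlinarith
      · rw [cl_of_mem h' h]; linarith
    · rw [cl_of_ge h, max_eq_left (by linarith)]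
      nlinarith
  have h3 := re_mono τ h1
  have h4 := re_mono σ h2
  have h5 := hle p p0
  simp only [map_add, Complex.add_re] at h3 h4
  rw [n2_sq, n2_sq]
  linarith

/-- A functional below a bounded trace has an approximate density. -/
theorem rn {σ τ : A →ₚ[ℂ] ℂ} (hσ : IsTr σ) (hle : ∀ a, 0 ≤ a → (τ a).re ≤ (σ a).re) {ε : ℝ}
    (hε : 0 < ε) : ∃ z : A, 0 ≤ z ∧ ‖z‖ ≤ 1 ∧ ∀ x, ‖τ x - σ (z * x)‖ ≤ ε * n2 σ x := by
  obtain ⟨C, C0, hC⟩ := exists_bound τ
  let F : A → ℝ := fun x => n2 σ x ^ 2 - 2 * (τ x).re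
  have key : ∀ x, ∃ z : A, 0 ≤ z ∧ ‖z‖ ≤ 1 ∧ F z ≤ F x := fun x => by
    have hy : IsSelfAdjoint ((1 / 2 : ℝ) • (x + star x)) :=
      (IsSelfAdjoint.all _).smul (IsSelfAdjoint.add_star_self x)
    refine ⟨cfcₙ cl ((1 / 2 : ℝ) • (x + star x)), cfcₙ_nonneg fun t _ => cl_nonneg t,
      norm_cfcₙ_le fun t _ => ?_, (rn_clamp hle hy).trans ?_⟩
    · rw [Real.norm_of_nonneg (cl_nonneg t)]; exact cl_le_one t
    · have h1 : n2 σ ((1 / 2 : ℝ) • (x + star x)) ≤ n2 σ x := by
        have := map_add_le_add (n2 σ) x (star x)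
        rw [hσ.n2_star] at this
        rw [n2_smul_real, abs_of_pos (by norm_num)]
        linarith
      have h2 : (τ ((1 / 2 : ℝ) • (x + star x))).re = (τ x).re := by
        rw [re_smul, map_add, Complex.add_re, re_star]; ring
      have h3 := pow_le_pow_left₀ (n2_nonneg _ _) h1 2
      simp only [F, h2]
      linarith
  have hb : BddBelow (Set.range F) := ⟨-(2 * C), by
    rintro _ ⟨x, rfl⟩
    obtain ⟨z, -, z1, hz⟩ := key x
    have h1 : (τ z).re ≤ C := (Complex.re_le_norm _).trans ((hC z).trans (by nlinarith))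
    have h2 := sq_nonneg (n2 σ z)
    simp only [F] at hz ⊢
    linarith⟩
  obtain ⟨_, ⟨x0, rfl⟩, hx0⟩ := Real.lt_sInf_add_pos (Set.range_nonempty F) (pow_pos hε 2)
  obtain ⟨z, z0, z1, hz⟩ := key x0
  refine ⟨z, z0, z1, fun x => ?_⟩
  set φ : ℂ := τ x - σ (z * x) with hφ
  have hq : ∀ s : ℝ, 0 ≤ ‖φ‖ ^ 2 * n2 σ x ^ 2 * (s * s) + -(2 * ‖φ‖ ^ 2) * s + ε ^ 2 := fun s => by
    have h1 : sInf (Set.range F) ≤ F (z + ((s : ℂ) * star φ) • x) := csInf_le hb ⟨_, rfl⟩
    have h2 : ((s : ℂ) * star φ * φ).re = s * ‖φ‖ ^ 2 := by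
      rw [mul_assoc, Complex.star_def, Complex.conj_mul', ← Complex.ofReal_pow,
        ← Complex.ofReal_mul, Complex.ofReal_re]
    have h3 : n2 σ (((s : ℂ) * star φ) • x) ^ 2 = ‖φ‖ ^ 2 * n2 σ x ^ 2 * (s * s) := by
      rw [map_smul_eq_mul, norm_mul, norm_star, Complex.norm_real, Real.norm_eq_abs, mul_pow,
        mul_pow, sq_abs]
      ring
    simp only [F] at h1 hz hx0
    rw [n2_add_sq, h3, (IsSelfAdjoint.of_nonneg z0).star_eq, mul_smul_comm, map_smul, map_add,
      map_smul, Complex.add_re, smul_eq_mul, smul_eq_mul] at h1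
    rw [hφ, mul_sub, Complex.sub_re, ← hφ] at h2
    linarith
  have hd := discrim_le_zero hq
  rw [discrim] at hd
  rcases (norm_nonneg φ).eq_or_lt with h | h
  · rw [← h]; exact mul_nonneg hε.le (n2_nonneg _ _)
  · refine (pow_le_pow_iff_left₀ h.le (mul_nonneg hε.le (n2_nonneg _ _)) two_ne_zero).1 ?_
    have h2 : 0 < ‖φ‖ ^ 2 := pow_pos h 2
    refine le_of_mul_le_mul_left ?_ h2
    nlinarith

/-- An approximate density of a trace is approximately central. -/
theorem rn_comm {σ τ : A →ₚ[ℂ] ℂ} (hσ : IsTr σ) (hτ : IsTr τ) {ε : ℝ} (hε : 0 ≤ ε) {z : A}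
    (hz : ∀ x, ‖τ x - σ (z * x)‖ ≤ ε * n2 σ x) (y : A) :
    n2 σ (z * y - y * z) ≤ 2 * ε * ‖y‖ := by
  set w := z * y - y * z with hw
  have h1 : σ (star w * w) = (τ (star w * y) - σ (z * (star w * y)))
      - (τ (y * star w) - σ (z * (y * star w))) := by
    rw [hτ (star w) y, hσ (star w) w, hw, sub_mul, map_sub, ← hw, hσ.rot' y z (star w),
      mul_assoc, mul_assoc]
    ring
  have h2 : n2 σ w ^ 2 ≤ 2 * ε * ‖y‖ * n2 σ w := by
    rw [n2_sq, h1]
    refine (Complex.re_le_norm _).trans ((norm_sub_le _ _).trans ?_)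
    have a1 := (hz (star w * y)).trans (mul_le_mul_of_nonneg_left (hσ.n2_mul_le' _ _) hε)
    have a2 := (hz (y * star w)).trans (mul_le_mul_of_nonneg_left (n2_mul_le σ _ _) hε)
    rw [hσ.n2_star] at a1 a2
    linarith
  rcases (n2_nonneg σ w).eq_or_lt with h | h
  · rw [← h]; positivity
  · exact le_of_mul_le_mul_right (by rwa [← pow_two]) h

end RN

section Comm

variable {U : Type*} [CStarAlgebra U] [PartialOrder U] [StarOrderedRing U] {σ : U →ₚ[ℂ] ℂ}

theorem poly_n2 (hσ : IsTr σ) (p : ℝ[X]) : ∃ C : ℝ, 0 ≤ C ∧ ∀ x a : U, ‖x‖ ≤ 1 →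
    n2 σ (aeval x p * a - a * aeval x p) ≤ C * n2 σ (x * a - a * x) := by
  have hp : ∀ k : ℕ, ∀ x a : U, ‖x‖ ≤ 1 →
      n2 σ (x ^ k * a - a * x ^ k) ≤ k * n2 σ (x * a - a * x) := fun k x a hx => by
    induction k with
    | zero => simp
    | succ k ih =>
      have e : x ^ (k + 1) * a - a * x ^ (k + 1)
          = x * (x ^ k * a - a * x ^ k) + (x * a - a * x) * x ^ k := by
        rw [pow_succ']; noncomm_ring
      have h1 : n2 σ ((x * a - a * x) * x ^ k) ≤ n2 σ (x * a - a * x) := by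
        clear ih e
        induction k with
        | zero => simp
        | succ k ih =>
          rw [pow_succ, ← mul_assoc]
          exact (hσ.n2_mul_le' _ _).trans
            ((mul_le_of_le_one_right (n2_nonneg _ _) hx).trans ih)
      have h2 := (n2_mul_le σ x (x ^ k * a - a * x ^ k)).trans
        (mul_le_of_le_one_left (n2_nonneg _ _) hx)
      rw [e]
      refine (map_add_le_add _ _ _).trans ?_
      push_cast
      linarith
  induction p using Polynomial.induction_on' with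
  | add p q hp hq =>
    obtain ⟨C, hC, h⟩ := hp
    obtain ⟨D, hD, h'⟩ := hq
    refine ⟨C + D, by positivity, fun x a hx => ?_⟩
    have e : aeval x (p + q) * a - a * aeval x (p + q)
        = (aeval x p * a - a * aeval x p) + (aeval x q * a - a * aeval x q) := by
      rw [map_add]; noncomm_ring
    rw [e, add_mul]
    exact (map_add_le_add _ _ _).trans (add_le_add (h x a hx) (h' x a hx))
  | monomial k c =>
    refine ⟨|c| * k, by positivity, fun x a hx => ?_⟩
    rw [aeval_monomial, ← Algebra.smul_def, smul_mul_assoc, mul_smul_comm, ← smul_sub,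
      n2_smul_real, mul_assoc]
    exact mul_le_mul_of_nonneg_left (hp k x a hx) (abs_nonneg c)

/-- Continuous functions of an asymptotically central family are asymptotically central. -/
theorem tendsto_cfc_n2 (hσ : IsTr σ) {κ : Type*} {l : Filter κ} {z : κ → U}
    (hz : ∀ n, IsSelfAdjoint (z n)) (z1 : ∀ n, ‖z n‖ ≤ 1) {f : ℝ → ℝ} (hf : Continuous f) {a : U}
    (h : Tendsto (fun n => n2 σ (z n * a - a * z n)) l (𝓝 0)) :
    Tendsto (fun n => n2 σ (cfc f (z n) * a - a * cfc f (z n))) l (𝓝 0) := by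
  refine tendsto_order.2 ⟨fun c hc => .of_forall fun n => hc.trans_le (n2_nonneg _ _),
    fun ε hε => ?_⟩
  have ha := n2_nonneg σ a
  have hη : 0 < ε / (3 * (n2 σ a + 1)) := by positivity
  obtain ⟨p, hp⟩ := exists_polynomial_near_of_continuousOn (-1) 1 f hf.continuousOn _ hη
  obtain ⟨C, hC, hpc⟩ := poly_n2 hσ p
  have ht := h.const_mul C
  rw [mul_zero] at ht
  filter_upwards [(tendsto_order.1 ht).2 (ε / 3) (by positivity)] with n hn
  have key : ‖cfc f (z n) - aeval (z n) p‖ ≤ ε / (3 * (n2 σ a + 1)) := by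
    rcases subsingleton_or_nontrivial U with hU | hU
    · rw [Subsingleton.elim (cfc f (z n) - aeval (z n) p) 0, norm_zero]; exact hη.le
    have hs : spectrum ℝ (z n) ⊆ Set.Icc (-1) 1 := fun t ht =>
      abs_le.1 ((spectrum.norm_le_norm_of_mem ht).trans (z1 n))
    have := hz n
    rw [← cfc_polynomial p (z n), ← cfc_sub f (fun t => p.eval t) (z n)]
    refine norm_cfc_le hη.le fun t ht => ?_
    rw [Real.norm_eq_abs, abs_sub_comm]
    exact (hp t (hs ht)).le
  set d := cfc f (z n) - aeval (z n) p with hd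
  have e : cfc f (z n) * a - a * cfc f (z n)
      = (d * a - a * d) + (aeval (z n) p * a - a * aeval (z n) p) := by rw [hd]; noncomm_ring
  have h1 := (n2_mul_le σ d a).trans (mul_le_mul_of_nonneg_right key ha)
  have h2 := (hσ.n2_mul_le' a d).trans (mul_le_mul_of_nonneg_left key ha)
  have h3 := hpc (z n) a (z1 n)
  have h4 : n2 σ a * (ε / (3 * (n2 σ a + 1))) < ε / 3 := by
    rw [← mul_div_assoc, div_lt_div_iff₀ (by positivity) (by positivity)]
    nlinarith
  have h5 := n2_sub_le σ (d * a) (a * d)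
  rw [e]
  refine (map_add_le_add _ _ _).trans_lt ?_
  linarith

end Comm

end Pool.Agent.Lib.CS20
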